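import Mathlib
import Pool.Agent.Q263.LD.Cls
import Pool.Agent.Q263.LD.One

/-! # The determinant of `((j+k)/p) + ((j-k)/p) + (jk/p)`, `1 ≤ j,k ≤ (p-1)/2` -/

set_option autoImplicit false

open Finset Matrix

namespace Pool.Agent.Results.MP_4f0cf1_nt.ThreeLegendre

/-- the matrix `((j+k)/p) + ((j-k)/p) + (jk/p)`, `1 ≤ j,k ≤ n` (rows and columns indexed by
`Fin n`, the index `i` standing for `i + 1`) -/
def matM (p n : ℕ) [Fact p.Prime] : Matrix (Fin n) (Fin n) ℤ :=
  Matrix.of fun j k => legendreSym p (((j : ℤ) + 1) + ((k : ℤ) + 1)) +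
    legendreSym p (((j : ℤ) + 1) - ((k : ℤ) + 1)) +
    legendreSym p (((j : ℤ) + 1) * ((k : ℤ) + 1))

open Q263.LD

variable {p : ℕ} [Fact p.Prime]

lemma matM_apply {n : ℕ} (j k : Fin n) : matM p n j k =
    quadraticChar (ZMod p) (pt p j + pt p k) + quadraticChar (ZMod p) (pt p j - pt p k) +
      quadraticChar (ZMod p) (pt p j) * quadraticChar (ZMod p) (pt p k) := by
  rw [matM, Matrix.of_apply, leg_add, leg_sub, legendreSym.mul, leg_pt, leg_pt]

lemma chi2_pow {m : ℕ} (hm0 : 0 < m) (hp : p = 2 * (2 * m) + 1) :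
    -(-(p : ℤ)) ^ (m - 1) = legendreSym p 2 * (p : ℤ) ^ (m - 1) := by
  have h2 : p ≠ 2 := by omega
  have h3 : legendreSym p 2 = ZMod.χ₈ p := legendreSym.at_two h2
  rw [h3, neg_pow, ← ZMod.natCast_mod p 8]
  rcases Nat.even_or_odd (m - 1) with e | e
  · have e1 := Nat.even_iff.mp e
    rw [show p % 8 = 5 by omega, e.neg_one_pow]
    have : ZMod.χ₈ ((5 : ℕ) : ZMod 8) = -1 := rfl
    rw [this]
    ring
  · have e1 := Nat.odd_iff.mp e
    rw [show p % 8 = 1 by omega, e.neg_one_pow]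
    have : ZMod.χ₈ ((1 : ℕ) : ZMod 8) = 1 := rfl
    rw [this]
    ring

theorem one {m : ℕ} (hm0 : 0 < m) (hp : p = 2 * (2 * m) + 1) :
    (matM p (2 * m)).det = legendreSym p 2 * (p : ℤ) ^ (m - 1) := by
  have h1 : matM p (2 * m) = (matB p m).map (Int.castRingHom ℤ) +
      (matU p m).map (Int.castRingHom ℤ) * (!![0, 0; 0, 1] : Matrix (Fin 2) (Fin 2) ℤ) *
        ((matU p m).map (Int.castRingHom ℤ))ᵀ := by
    ext j k
    rw [Matrix.add_apply, Matrix.mul_apply, Fin.sum_univ_two, Matrix.mul_apply, Matrix.mul_apply,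
      Fin.sum_univ_two, Fin.sum_univ_two, matM_apply]
    simp [matB, matU]
  rw [h1, det_perturb hp]
  have h2 : (1 : Matrix (Fin 2) (Fin 2) ℤ) - (2 * m : ℤ) • (matS ℤ * !![0, 0; 0, 1]) =
      !![1, -(2 * (m : ℤ)); 0, 1] := by
    ext i j
    fin_cases i <;> fin_cases j <;>
      simp [matS, Matrix.mul_apply, Fin.sum_univ_two, Matrix.one_apply]
  rw [h2, Matrix.det_fin_two_of, det_B hm0 hp, chi2_pow hm0 hp]
  simp

theorem three {n : ℕ} (hp : p = 2 * n + 1) (hn : n % 2 = 1) :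
    (matM p n).det = (matC p n).det * (1 - Sh p n) := by
  have h1 : matM p n = matC p n * (1 + Matrix.replicateCol Unit (fun _ : Fin n => (-1 : ℤ)) *
      Matrix.replicateRow Unit (fun k : Fin n => quadraticChar (ZMod p) (pt p k))) := by
    rw [Matrix.mul_add, Matrix.mul_one, ← Matrix.mul_assoc]
    ext j k
    rw [Matrix.add_apply, Matrix.mul_apply, matM_apply]
    simp only [Finset.univ_unique, Finset.sum_singleton, Matrix.replicateRow_apply]
    rw [Matrix.mul_apply]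
    simp only [Matrix.replicateCol_apply, mul_neg, mul_one, Finset.sum_neg_distrib]
    rw [C_row hp hn, neg_neg]
    rfl
  rw [h1, Matrix.det_mul, Matrix.det_one_add_replicateCol_mul_replicateRow]
  congr 1
  rw [dotProduct, Sh]
  simp only [mul_neg, mul_one, Finset.sum_neg_distrib]
  ring

/-- **Answer to Q1: yes.** -/
theorem result (p : ℕ) [Fact p.Prime] (h3 : 3 < p) :
    (p % 4 = 1 → (matM p ((p - 1) / 2)).det = legendreSym p 2 * (p : ℤ) ^ ((p - 5) / 4)) ∧
    (p % 4 = 3 → ∀ (K : Type*) [Field K] [NumberField K], Module.finrank ℚ K = 2 →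
      (∃ x : K, x ^ 2 = -(p : K)) → (matM p ((p - 1) / 2)).det =
        (-1) ^ ((NumberField.classNumber K - 1) / 2) *
        (1 - (2 - legendreSym p 2) * (NumberField.classNumber K : ℤ)) *
        (p : ℤ) ^ ((p - 3) / 4)) := by
  constructor
  · intro h4
    obtain ⟨m, hm⟩ : ∃ m, p = 2 * (2 * m) + 1 := ⟨p / 4, by omega⟩
    rw [show (p - 1) / 2 = 2 * m by omega, show (p - 5) / 4 = m - 1 by omega]
    exact one (by omega) hm
  · rintro h4 K _ _ hK ⟨x, hx⟩
    obtain ⟨n, hn⟩ : ∃ n, p = 2 * n + 1 := ⟨p / 2, by omega⟩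
    have hn2 : n % 2 = 1 := by omega
    rw [show (p - 1) / 2 = n by omega, three hn hn2, C_det_cls hn hn2 h3 K hK x hx,
      Sh_eq hn hn2 h3 K hK x hx, show (p - 3) / 4 = (n - 1) / 2 by omega]
    ring

end Pool.Agent.Results.MP_4f0cf1_nt.ThreeLegendre
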